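import Pool.Agent.Work.MP_e64a38_co.Env.QSt

/-!
# Module Brg (S-M): the systems of chords of a curve with quasisymmetric slope

`sysOf`: `p i = (φ (b i) - φ (a i)) / (b i - a i)`, `q i = φ (a i) - p i * a i`; `above` is `chord_above`.
`sysOf_v`: by definition. `str_sysOf`: `qs_strong`. `str_mir`: `(sysOf …).mir.v i w = chord φ (a i) (b i) (-w)`
`= chord (fun x => φ (-x)) (-b i) (-a i) w`; use `qs_mirror` and `qs_strong`.
-/

set_option autoImplicit false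

namespace Pool.Agent.Work.MP_e64a38_co.Env

variable {ι : Type*}

/-- the system of the chords of a curve -/
noncomputable def sysOf {K : ℝ} {I : Set ℝ} {φ ψ : ℝ → ℝ} (h : QS K I φ ψ) (a b : ι → ℝ)
    (hab : ∀ i, a i ∈ I ∧ b i ∈ I ∧ a i < b i) : Sys ι where
  a := a
  b := b
  p i := (φ (b i) - φ (a i)) / (b i - a i)
  q i := φ (a i) - (φ (b i) - φ (a i)) / (b i - a i) * a i
  φ := φ
  lt i := (hab i).2.2
  ea i := by ring
  eb i := by
    have h1 : b i - a i ≠ 0 := sub_ne_zero.2 (hab i).2.2.ne'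
    field_simp
    ring
  above i x h1 h2 := by
    have h3 := chord_above h (hab i).1 (hab i).2.1 h1 h2
    rw [chord] at h3
    linarith [h3]

theorem sysOf_v {K : ℝ} {I : Set ℝ} {φ ψ : ℝ → ℝ} (h : QS K I φ ψ) (a b : ι → ℝ)
    (hab : ∀ i, a i ∈ I ∧ b i ∈ I ∧ a i < b i) (i : ι) (x : ℝ) :
    (sysOf h a b hab).v i x = chord φ (a i) (b i) x := by
  simp only [Sys.v, sysOf, chord]
  ring

theorem str_sysOf {K : ℝ} (hK : 1 ≤ K) {N : ℕ} (hN : 8 * (1 + K) ^ 2 ≤ (1 + 1 / K) ^ N)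
    {I : Set ℝ} {φ ψ : ℝ → ℝ} (h : QS K I φ ψ) (a b : ι → ℝ)
    (hab : ∀ i, a i ∈ I ∧ b i ∈ I ∧ a i < b i) : Str (sysOf h a b hab) ((1 / 2) ^ N) := by
  intro s t z heq haa haz hzb hbb h1 h2
  rw [sysOf_v, sysOf_v] at heq
  exact qs_strong hK hN h (hab s).1 (hab s).2.1 (hab t).1 (hab t).2.1 haa haz hzb hbb heq h1 h2

theorem str_mir {K : ℝ} (hK : 1 ≤ K) {N : ℕ} (hN : 8 * (1 + K) ^ 2 ≤ (1 + 1 / K) ^ N)
    {I : Set ℝ} {φ ψ : ℝ → ℝ} (h : QS K I φ ψ) (a b : ι → ℝ)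
    (hab : ∀ i, a i ∈ I ∧ b i ∈ I ∧ a i < b i) : Str (sysOf h a b hab).mir ((1 / 2) ^ N) := by
  have hv : ∀ i w, (sysOf h a b hab).mir.v i w = chord (fun x => φ (-x)) (-b i) (-a i) w := by
    intro i w
    have h0 : b i - a i ≠ 0 := sub_ne_zero.2 (hab i).2.2.ne'
    have e1 : (sysOf h a b hab).mir.v i w = (sysOf h a b hab).v i (-w) := by
      simp only [Sys.v, Sys.mir]
      ring
    have e2 : (-a i - -b i) = b i - a i := by ring
    rw [e1, sysOf_v]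
    simp only [chord, neg_neg, e2]
    field_simp
    ring
  have hm : ∀ i, -b i ∈ Neg.neg ⁻¹' I ∧ -a i ∈ Neg.neg ⁻¹' I := by
    intro i
    constructor
    · simpa using (hab i).2.1
    · simpa using (hab i).1
  intro s t z heq haa haz hzb hbb h1 h2
  rw [hv, hv] at heq
  exact qs_strong hK hN (qs_mirror h) (hm s).1 (hm s).2 (hm t).1 (hm t).2 haa haz hzb hbb heq h1 h2

end Pool.Agent.Work.MP_e64a38_co.Env
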