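import Pool.Agent.Work.MP_e64a38_co.Env.Crs

/-!
# Module Mir (M): the mirror image

`run_mir`: `x' k = - x (m - k)`, `c' k = c (m - k)`. `S.mir.v i w = S.v i (-w)`, and `i` lies over `w` in `S.mir`
iff it lies over `-w` in `S`. `ru_card_le`: the map `k ↦ m - 1 - k` sends `RU` injectively into `LU` of the mirror
image: with `k' = m - 1 - k` : `c' k' = c (k + 1)`, `c' (k' + 1) = c k`, `x' k' = - x (k + 1)`,
`x' (k' + 1) = - x k`, the two conditions of `Ev` are exchanged, `zz' k' = - zz k`, and the condition of `LU` for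
`k'` is `(- z) - (- b (c k)) ≤ ε (- a (c k) - (- z))`, the condition of `RU` for `k`.
-/

set_option autoImplicit false

namespace Pool.Agent.Work.MP_e64a38_co.Env

variable {ι : Type*}

theorem run_mir {S : Sys ι} {m : ℕ} {x : ℕ → ℝ} {c : ℕ → ι} (h : Run S m x c) :
    Run S.mir m (fun k => -x (m - k)) (fun k => c (m - k)) := by
  refine ⟨fun k hk => ?_, fun k hk => ?_, fun k hk => ?_⟩
  · have h1 := h.inc (m - (k + 1)) (by omega)
    have e : m - (k + 1) + 1 = m - k := by omega
    rw [e] at h1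
    exact neg_lt_neg h1
  · obtain ⟨h1, h2, h3⟩ := h.low (m - k) (by omega)
    refine ⟨neg_lt_neg h2, neg_lt_neg h1, fun j hj hj1 hj2 => ?_⟩
    have h4 := h3 j hj (neg_lt_neg_iff.1 hj2) (neg_lt_neg_iff.1 hj1)
    simpa [Sys.v, Sys.mir] using h4
  · have h1 := h.ne (m - (k + 1)) (by omega)
    have e : m - (k + 1) + 1 = m - k := by omega
    rw [e] at h1
    exact h1.symm

theorem ru_card_le {S : Sys ι} {ε : ℝ} {m : ℕ} {x : ℕ → ℝ} {c : ℕ → ι} :
    (RU S ε m x c).card ≤
      (LU S.mir ε m (fun k => -x (m - k)) (fun k => c (m - k))).card := by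
  apply Finset.card_le_card_of_injOn (fun k => m - 1 - k)
  · intro k hk
    have hk' : k ∈ RU S ε m x c := hk
    unfold RU Ev at hk'
    rw [Finset.mem_filter, Finset.mem_filter, Finset.mem_range] at hk'
    obtain ⟨⟨hkm, h1, h2⟩, h3⟩ := hk'
    have e1 : m - (m - 1 - k) = k + 1 := by omega
    have e2 : m - (m - 1 - k + 1) = k := by omega
    have hz : zz S.mir (fun k => c (m - k)) (m - 1 - k) = - zz S c k := by
      simp only [zz, cr, e1, e2, Sys.mir]
      have e3 : -S.p (c (k + 1)) - -S.p (c k) = S.p (c k) - S.p (c (k + 1)) := by ring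
      rw [e3, ← neg_div]
      congr 1
      ring
    show m - 1 - k ∈ LU S.mir ε m (fun k => -x (m - k)) (fun k => c (m - k))
    unfold LU Ev
    rw [Finset.mem_filter, Finset.mem_filter, Finset.mem_range]
    refine ⟨⟨by omega, ?_, ?_⟩, ?_⟩
    · simp only [e1, e2, Sys.mir]
      exact neg_lt_neg h2
    · simp only [e1, e2, Sys.mir]
      exact neg_lt_neg h1
    · rw [hz]
      simp only [e2, Sys.mir]
      have e4 : -zz S c k - -S.b (c k) = S.b (c k) - zz S c k := by ring
      have e5 : -S.a (c k) - -zz S c k = zz S c k - S.a (c k) := by ring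
      rw [e4, e5]
      exact h3
  · intro k hk l hl hkl
    have hk' : k ∈ RU S ε m x c := hk
    have hl' : l ∈ RU S ε m x c := hl
    unfold RU Ev at hk' hl'
    rw [Finset.mem_filter, Finset.mem_filter, Finset.mem_range] at hk' hl'
    have h1 := hk'.1.1
    have h2 := hl'.1.1
    simp only at hkl
    omega

end Pool.Agent.Work.MP_e64a38_co.Env
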