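import Pool.Agent.Work.MP_e64a38_co.Env.Brd

/-!
# Module Pot (M-L): the potential

`J = log (1 + ε) > 0`, `lo = log ε - J`, `hi = - log ε + J`, `lo < hi`. For a chord `i` over `w` let
`L i w = log ((w - a i) / (b i - w))`, increasing in `w`. `P k = max lo (min hi (L (c k) (x k)))`.
(1) for `k ∈ Ev` (`t = c k`, `s = c (k + 1)`, `z = zz k`, `crossing`): `L t (x k) ≤ L t z < L s z ≤ L s (x (k + 1))`
as `z - a t < z - a s` and `b s - z < b t - z`; so `P k ≤ P (k + 1)`.
(2) for `k ∈ M`: `P k + J ≤ P (k + 1)`: `L s z - L t z ≥ log ((z - a s) / (z - a t)) ≥ J`, `L s z > log ε` and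
`L t z < - log ε`; so with `f = max lo ∘ min hi`: `f (L t z) + J ≤ f (L s z)` (if `L t z ≤ lo` then
`f (L t z) = lo` and `f (L s z) ≥ log ε = lo + J`; if `L s z ≥ hi` then `f (L s z) = hi` and
`f (L t z) ≤ - log ε = hi - J`; otherwise both values are not cut).
(3) for `k < m` not in `Ev`: `P k - (hi - lo) ≤ P (k + 1)` as all values are in `[lo, hi]`; by `births` there are at
most `2 card ι` of these `k`. Sum over `k < m`: `J * card M - 2 card ι (hi - lo) ≤ P m - P 0 ≤ hi - lo`, and
`hi - lo = 2 J - 2 log ε`.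
-/

set_option autoImplicit false

namespace Pool.Agent.Work.MP_e64a38_co.Env

variable {ι : Type*}

private noncomputable def pL (S : Sys ι) (i : ι) (w : ℝ) : ℝ :=
  Real.log (w - S.a i) - Real.log (S.b i - w)

private theorem pL_mono {S : Sys ι} {i : ι} {w w' : ℝ} (h1 : S.a i < w) (h2 : w ≤ w')
    (h3 : w' < S.b i) : pL S i w ≤ pL S i w' := by
  unfold pL
  have e1 := Real.log_le_log (by linarith : 0 < w - S.a i) (by linarith : w - S.a i ≤ w' - S.a i)
  have e2 := Real.log_le_log (by linarith : 0 < S.b i - w') (by linarith : S.b i - w' ≤ S.b i - w)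
  linarith

private theorem cut_mono {lo hi u v : ℝ} (h : u ≤ v) :
    max lo (min hi u) ≤ max lo (min hi v) :=
  max_le_max le_rfl (min_le_min le_rfl h)

private theorem cut_lo (lo hi u : ℝ) : lo ≤ max lo (min hi u) := le_max_left _ _

private theorem cut_hi {lo hi : ℝ} (h : lo ≤ hi) (u : ℝ) : max lo (min hi u) ≤ hi :=
  max_le h (min_le_left _ _)

private theorem cut_gap {lo hi J u v : ℝ} (hJ : 0 ≤ J) (h1 : lo + J ≤ hi - J) (h2 : u + J ≤ v)
    (h3 : lo + J ≤ v) (h4 : u ≤ hi - J) :
    max lo (min hi u) + J ≤ max lo (min hi v) := by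
  have e1 : max lo (min hi u) ≤ max lo u := max_le_max le_rfl (min_le_right _ _)
  have e2 : max lo u + J ≤ min hi v := by
    rw [← max_add_add_right]
    apply max_le
    · exact le_min (by linarith) h3
    · exact le_min (by linarith) h2
  have e3 : min hi v ≤ max lo (min hi v) := le_max_right _ _
  linarith

theorem pot_card [Fintype ι] {S : Sys ι} {ε : ℝ} (hε : 0 < ε) (hε2 : ε ≤ 1) {m : ℕ} {x : ℕ → ℝ}
    {c : ℕ → ι} (h : Run S m x c) (M : Finset ℕ)
    (hM : ∀ k ∈ M, k ∈ Ev S m x c ∧
      ε * (S.b (c (k + 1)) - zz S c k) < zz S c k - S.a (c (k + 1)) ∧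
      ε * (zz S c k - S.a (c k)) < S.b (c k) - zz S c k ∧
      (1 + ε) * (zz S c k - S.a (c k)) ≤ zz S c k - S.a (c (k + 1))) :
    (M.card : ℝ) * Real.log (1 + ε) ≤
      (2 * (Fintype.card ι : ℝ) + 1) * (2 * Real.log (1 + ε) - 2 * Real.log ε) := by
  set J : ℝ := Real.log (1 + ε) with hJ
  have hJ0 : 0 < J := Real.log_pos (by linarith)
  have hl0 : Real.log ε ≤ 0 := Real.log_nonpos hε.le hε2
  set lo : ℝ := Real.log ε - J with hlo
  set hi : ℝ := -Real.log ε + J with hhi
  have hlohi : lo + J ≤ hi - J := by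
    rw [hlo, hhi]
    linarith
  have hlh : lo ≤ hi := by linarith
  set P : ℕ → ℝ := fun k => max lo (min hi (pL S (c k) (x k))) with hP
  have hMsub : M ⊆ Ev S m x c := fun k hk => (hM k hk).1
  have hEsub : Ev S m x c ⊆ Finset.range m := Finset.filter_subset _ _
  -- the monotone chain at a crossing
  have hstep : ∀ k ∈ Ev S m x c, pL S (c k) (x k) ≤ pL S (c k) (zz S c k) ∧
      pL S (c k) (zz S c k) ≤ pL S (c (k + 1)) (zz S c k) ∧
      pL S (c (k + 1)) (zz S c k) ≤ pL S (c (k + 1)) (x (k + 1)) := by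
    intro k hk
    have T := crossing h hk
    have t1 := T.xz
    have t2 := T.zy
    have t3 := T.aa
    have t4 := T.bb
    have t5 := T.ax
    have t6 := T.yb
    refine ⟨pL_mono t5 t1.le (by linarith), ?_, pL_mono (by linarith) t2.le t6⟩
    unfold pL
    have e1 := Real.log_le_log (by linarith : 0 < zz S c k - S.a (c k))
      (by linarith : zz S c k - S.a (c k) ≤ zz S c k - S.a (c (k + 1)))
    have e2 := Real.log_le_log (by linarith : 0 < S.b (c (k + 1)) - zz S c k)
      (by linarith : S.b (c (k + 1)) - zz S c k ≤ S.b (c k) - zz S c k)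
    linarith
  have hEv : ∀ k ∈ Ev S m x c, P k ≤ P (k + 1) := by
    intro k hk
    obtain ⟨e1, e2, e3⟩ := hstep k hk
    exact cut_mono (e1.trans (e2.trans e3))
  have hMk : ∀ k ∈ M, P k + J ≤ P (k + 1) := by
    intro k hk
    obtain ⟨hk1, hk2, hk3, hk4⟩ := hM k hk
    obtain ⟨e1, e2, e3⟩ := hstep k hk1
    have T := crossing h hk1
    have t1 := T.xz
    have t2 := T.zy
    have t3 := T.aa
    have t4 := T.bb
    have t5 := T.ax
    have t6 := T.yb
    have p1 : 0 < zz S c k - S.a (c k) := by linarith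
    have p2 : 0 < S.b (c (k + 1)) - zz S c k := by linarith
    have p3 : 0 < zz S c k - S.a (c (k + 1)) := by linarith
    have p4 : 0 < S.b (c k) - zz S c k := by linarith
    have f1 : J + Real.log (zz S c k - S.a (c k)) ≤ Real.log (zz S c k - S.a (c (k + 1))) := by
      rw [hJ, ← Real.log_mul (by linarith) p1.ne']
      exact Real.log_le_log (by positivity) hk4
    have f2 : Real.log (S.b (c (k + 1)) - zz S c k) ≤ Real.log (S.b (c k) - zz S c k) :=
      Real.log_le_log p2 (by linarith)
    have f3 : Real.log ε + Real.log (S.b (c (k + 1)) - zz S c k) ≤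
        Real.log (zz S c k - S.a (c (k + 1))) := by
      rw [← Real.log_mul hε.ne' p2.ne']
      exact Real.log_le_log (by positivity) hk2.le
    have f4 : Real.log ε + Real.log (zz S c k - S.a (c k)) ≤ Real.log (S.b (c k) - zz S c k) := by
      rw [← Real.log_mul hε.ne' p1.ne']
      exact Real.log_le_log (by positivity) hk3.le
    have g1 : pL S (c k) (zz S c k) + J ≤ pL S (c (k + 1)) (zz S c k) := by
      unfold pL
      linarith
    have g2 : lo + J ≤ pL S (c (k + 1)) (zz S c k) := by
      unfold pL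
      rw [hlo]
      linarith
    have g3 : pL S (c k) (zz S c k) ≤ hi - J := by
      unfold pL
      rw [hhi]
      linarith
    have g4 := cut_gap hJ0.le hlohi g1 g2 g3
    have g5 : P k ≤ max lo (min hi (pL S (c k) (zz S c k))) := cut_mono e1
    have g6 : max lo (min hi (pL S (c (k + 1)) (zz S c k))) ≤ P (k + 1) := cut_mono e3
    linarith
  have hall : ∀ k, P k - (hi - lo) ≤ P (k + 1) := by
    intro k
    have e1 : P k ≤ hi := cut_hi hlh _
    have e2 : lo ≤ P (k + 1) := cut_lo _ _ _
    linarith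
  -- summation
  have hterm : ∀ k ∈ Finset.range m, (if k ∈ M then J else 0) -
      (if k ∈ Finset.range m \ Ev S m x c then hi - lo else 0) ≤ P (k + 1) - P k := by
    intro k hk
    by_cases h1 : k ∈ M
    · have h2 : k ∉ Finset.range m \ Ev S m x c := by
        rw [Finset.mem_sdiff]
        exact fun h3 => h3.2 (hMsub h1)
      rw [if_pos h1, if_neg h2]
      have := hMk k h1
      linarith
    · by_cases h2 : k ∈ Ev S m x c
      · have h3 : k ∉ Finset.range m \ Ev S m x c := by
          rw [Finset.mem_sdiff]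
          exact fun h3 => h3.2 h2
        rw [if_neg h1, if_neg h3]
        have := hEv k h2
        linarith
      · have h3 : k ∈ Finset.range m \ Ev S m x c := Finset.mem_sdiff.mpr ⟨hk, h2⟩
        rw [if_neg h1, if_pos h3]
        have := hall k
        linarith
  have hsum := Finset.sum_le_sum hterm
  rw [Finset.sum_range_sub, Finset.sum_sub_distrib, ← Finset.sum_filter, ← Finset.sum_filter,
    Finset.sum_const, Finset.sum_const, nsmul_eq_mul, nsmul_eq_mul] at hsum
  have hf1 : (Finset.range m).filter (fun k => k ∈ M) = M := by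
    rw [Finset.filter_mem_eq_inter]
    exact Finset.inter_eq_right.mpr (hMsub.trans hEsub)
  have hf2 : (Finset.range m).filter (fun k => k ∈ Finset.range m \ Ev S m x c) =
      Finset.range m \ Ev S m x c := by
    rw [Finset.filter_mem_eq_inter]
    exact Finset.inter_eq_right.mpr Finset.sdiff_subset
  rw [hf1, hf2] at hsum
  have hcard : ((Finset.range m \ Ev S m x c).card : ℝ) ≤ 2 * (Fintype.card ι : ℝ) := by
    have h1 := births h
    have h2 := Finset.card_sdiff_add_card_eq_card hEsub
    rw [Finset.card_range] at h2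
    have h3 : (Finset.range m \ Ev S m x c).card ≤ 2 * Fintype.card ι := by omega
    exact_mod_cast h3
  have hPm : P m ≤ hi := cut_hi hlh _
  have hP0 : lo ≤ P 0 := cut_lo _ _ _
  have hd : hi - lo = 2 * J - 2 * Real.log ε := by
    rw [hlo, hhi]
    ring
  have hd0 : 0 ≤ hi - lo := by linarith
  have hmul := mul_le_mul_of_nonneg_right hcard hd0
  rw [← hd]
  linarith

end Pool.Agent.Work.MP_e64a38_co.Env
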