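import Pool.Agent.Work.MP_e64a38_co.Env.Fct

/-!
# Module Sml (S): the balanced crossings with small ratio

The map `k ↦ c (k + 1)` is injective on this set. Let `k < l` be in it, `s = c (k + 1) = c (l + 1)`, `z = zz k`,
`z' = zz l`, `u = c l`. `factB`: `x (k + 1) ≤ a u`, so `z < a u`. So
`z' - a s < (1 + ε) (z' - a u) < (1 + ε) (z' - z)`, i.e. `z - a s < ε (z' - z)`; but
`z' < x (l + 1) < b s`, so `ε (z' - z) < ε (b s - z) < z - a s`. Contradiction.
-/

set_option autoImplicit false

namespace Pool.Agent.Work.MP_e64a38_co.Env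

variable {ι : Type*}

theorem small_card [Fintype ι] {S : Sys ι} {ε : ℝ} (hε : 0 < ε) {m : ℕ} {x : ℕ → ℝ} {c : ℕ → ι}
    (h : Run S m x c) (M : Finset ℕ)
    (hM : ∀ k ∈ M, k ∈ Ev S m x c ∧
      ε * (S.b (c (k + 1)) - zz S c k) < zz S c k - S.a (c (k + 1)) ∧
      zz S c k - S.a (c (k + 1)) < (1 + ε) * (zz S c k - S.a (c k))) :
    M.card ≤ Fintype.card ι := by
  classical
  have key : ∀ k ∈ M, ∀ l ∈ M, k < l → c (k + 1) = c (l + 1) → False := by
    intro k hk l hl hkl hc
    obtain ⟨hkE, hk1, -⟩ := hM k hk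
    obtain ⟨hlE, -, hl2⟩ := hM l hl
    have h1 := factB h hkE hlE hkl hc
    have tk := crossing h hkE
    have tl := crossing h hlE
    have h2 := tk.zy
    have h3 := tl.zy
    have h4 := tl.yb
    rw [← hc] at hl2 h4
    have h5 : zz S c k < S.a (c l) := lt_of_lt_of_le h2 h1
    nlinarith [mul_pos hε (sub_pos.2 h5)]
  have hinj : Set.InjOn (fun k => c (k + 1)) M := by
    intro k hk l hl hc
    rcases lt_trichotomy k l with hkl | hkl | hkl
    · exact (key k hk l hl hkl hc).elim
    · exact hkl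
    · exact (key l hl k hk hkl hc.symm).elim
  rw [← Finset.card_image_of_injOn hinj]
  exact Finset.card_le_univ _

end Pool.Agent.Work.MP_e64a38_co.Env
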