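import Pool.Agent.Work.MP_e64a38_co.Env.LuC
import Pool.Agent.Work.MP_e64a38_co.Env.Mir
import Pool.Agent.Work.MP_e64a38_co.Env.Sml
import Pool.Agent.Work.MP_e64a38_co.Env.Pot

/-!
# Module Cnt (S-M): the bound for the abstract systems

`Ev` is the union of `LU`, `RU`, the set of `small_card` and the set of `pot_card` (all for the same `ε`), `births`
bounds `m - card Ev`. `RU`: `ru_card_le`, `run_mir`, `lu_card` for `S.mir`. Take a natural number `A` with
`A * log (1 + ε) ≥ 2 log (1 + ε) - 2 log ε` and `C = 9 + 3 * A`; `1 ≤ card ι` as `c 0` exists, so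
`(2 card ι + 1) A ≤ 3 A card ι`.
-/

set_option autoImplicit false

namespace Pool.Agent.Work.MP_e64a38_co.Env

theorem abstract_bound {ε : ℝ} (hε : 0 < ε) (hε2 : 2 * ε ≤ 1) :
    ∃ C : ℕ, ∀ {ι : Type*} [Fintype ι] (S : Sys ι), Str S ε → Str S.mir ε →
      ∀ (m : ℕ) (x : ℕ → ℝ) (c : ℕ → ι), Run S m x c → m ≤ C * Fintype.card ι := by
  classical
  have hJ : 0 < Real.log (1 + ε) := Real.log_pos (by linarith)
  obtain ⟨A, hA⟩ := exists_nat_ge ((2 * Real.log (1 + ε) - 2 * Real.log ε) / Real.log (1 + ε))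
  have hA' : 2 * Real.log (1 + ε) - 2 * Real.log ε ≤ A * Real.log (1 + ε) := by
    rwa [div_le_iff₀ hJ] at hA
  refine ⟨9 + 3 * A, ?_⟩
  intro ι _ S hS hS' m x c h
  have hn : 1 ≤ Fintype.card ι := Fintype.card_pos_iff.2 ⟨c 0⟩
  set M1 : Finset ℕ := (Ev S m x c).filter (fun k =>
    ε * (S.b (c (k + 1)) - zz S c k) < zz S c k - S.a (c (k + 1)) ∧
      zz S c k - S.a (c (k + 1)) < (1 + ε) * (zz S c k - S.a (c k))) with hM1
  set M2 : Finset ℕ := (Ev S m x c).filter (fun k =>
    ε * (S.b (c (k + 1)) - zz S c k) < zz S c k - S.a (c (k + 1)) ∧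
      ε * (zz S c k - S.a (c k)) < S.b (c k) - zz S c k ∧
      (1 + ε) * (zz S c k - S.a (c k)) ≤ zz S c k - S.a (c (k + 1))) with hM2
  have hcov : Ev S m x c ⊆ ((LU S ε m x c ∪ RU S ε m x c) ∪ M1) ∪ M2 := by
    intro k hk
    simp only [Finset.mem_union, LU, RU, hM1, hM2, Finset.mem_filter]
    by_cases h1 : zz S c k - S.a (c (k + 1)) ≤ ε * (S.b (c (k + 1)) - zz S c k)
    · exact Or.inl (Or.inl (Or.inl ⟨hk, h1⟩))
    · by_cases h2 : S.b (c k) - zz S c k ≤ ε * (zz S c k - S.a (c k))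
      · exact Or.inl (Or.inl (Or.inr ⟨hk, h2⟩))
      · by_cases h3 : zz S c k - S.a (c (k + 1)) < (1 + ε) * (zz S c k - S.a (c k))
        · exact Or.inl (Or.inr ⟨hk, not_le.1 h1, h3⟩)
        · exact Or.inr ⟨hk, not_le.1 h1, not_le.1 h2, not_lt.1 h3⟩
  have c0 := births h
  have c1 := lu_card hε hε2 hS h
  have c2 : (RU S ε m x c).card ≤ 3 * Fintype.card ι :=
    le_trans ru_card_le (lu_card hε hε2 hS' (run_mir h))
  have c3 : M1.card ≤ Fintype.card ι :=
    small_card hε h M1 (fun k hk => by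
      rw [hM1, Finset.mem_filter] at hk
      exact hk)
  have c4 : (M2.card : ℝ) * Real.log (1 + ε) ≤
      (2 * (Fintype.card ι : ℝ) + 1) * (2 * Real.log (1 + ε) - 2 * Real.log ε) :=
    pot_card hε (by linarith) h M2 (fun k hk => by
      rw [hM2, Finset.mem_filter] at hk
      exact hk)
  have c5 : M2.card ≤ (2 * Fintype.card ι + 1) * A := by
    have h1 : (M2.card : ℝ) * Real.log (1 + ε) ≤
        ((2 * (Fintype.card ι : ℝ) + 1) * A) * Real.log (1 + ε) := by
      refine le_trans c4 ?_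
      rw [mul_assoc]
      exact mul_le_mul_of_nonneg_left hA' (by positivity)
    have h2 := le_of_mul_le_mul_right h1 hJ
    exact_mod_cast h2
  have c6 : (Ev S m x c).card ≤
      (((LU S ε m x c).card + (RU S ε m x c).card) + M1.card) + M2.card :=
    le_trans (Finset.card_le_card hcov) (le_trans (Finset.card_union_le _ _)
      (Nat.add_le_add_right (le_trans (Finset.card_union_le _ _)
        (Nat.add_le_add_right (Finset.card_union_le _ _) _)) _))
  have c7 : (2 * Fintype.card ι + 1) * A ≤ 3 * A * Fintype.card ι := by nlinarith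
  calc m ≤ (Ev S m x c).card + 2 * Fintype.card ι := c0
    _ ≤ 9 * Fintype.card ι + 3 * A * Fintype.card ι := by omega
    _ = (9 + 3 * A) * Fintype.card ι := by ring

end Pool.Agent.Work.MP_e64a38_co.Env
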