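import Pool.Agent.Work.MP_e64a38_co.Env.Fct

/-!
# Module Brd (S-M): the steps which are not crossings

`k < m` is not in `Ev`: either `x k ≤ a (c (k + 1))`, then `k + 1` is the first index `j` with `c j = c (k + 1)`
(for `j ≤ k` : `a (c j) < x j ≤ x k`), so `k ↦ c (k + 1)` is injective on these `k`; or `b (c k) ≤ x (k + 1)`, then
`k` is the last index `j ≤ m` with `c j = c k` (for `k < j ≤ m` : `x (k+1) ≤ x j < b (c j)`), so `k ↦ c k` is
injective on these `k`. So there are at most `2 * card ι` of them.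
-/

set_option autoImplicit false

namespace Pool.Agent.Work.MP_e64a38_co.Env

variable {ι : Type*}

private theorem run_mono {S : Sys ι} {m : ℕ} {x : ℕ → ℝ} {c : ℕ → ι} (h : Run S m x c) {i j : ℕ}
    (hij : i ≤ j) (hj : j ≤ m) : x i ≤ x j := by
  induction j, hij using Nat.le_induction with
  | base => exact le_rfl
  | succ j _ ih => exact (ih (by omega)).trans (h.inc j (by omega)).le

theorem births [Fintype ι] {S : Sys ι} {m : ℕ} {x : ℕ → ℝ} {c : ℕ → ι} (h : Run S m x c) :
    m ≤ (Ev S m x c).card + 2 * Fintype.card ι := by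
  classical
  obtain ⟨B1, hB1⟩ : ∃ B1 : Finset ℕ,
      B1 = (Finset.range m).filter (fun k => x k ≤ S.a (c (k + 1))) := ⟨_, rfl⟩
  obtain ⟨B2, hB2⟩ : ∃ B2 : Finset ℕ,
      B2 = (Finset.range m).filter (fun k => S.b (c k) ≤ x (k + 1)) := ⟨_, rfl⟩
  have hsub : Finset.range m ⊆ Ev S m x c ∪ (B1 ∪ B2) := by
    intro k hk
    rw [Finset.mem_union, Finset.mem_union, hB1, hB2, Finset.mem_filter, Finset.mem_filter, Ev,
      Finset.mem_filter]
    by_cases h1 : S.a (c (k + 1)) < x k
    · by_cases h2 : x (k + 1) < S.b (c k)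
      · exact Or.inl ⟨hk, h1, h2⟩
      · exact Or.inr (Or.inr ⟨hk, not_lt.1 h2⟩)
    · exact Or.inr (Or.inl ⟨hk, not_lt.1 h1⟩)
  have hi1 : ∀ k ∈ B1, ∀ k' ∈ B1, k < k' → c (k + 1) ≠ c (k' + 1) := by
    intro k hk k' hk' hlt heq
    rw [hB1, Finset.mem_filter, Finset.mem_range] at hk hk'
    have h1 := (h.low (k + 1) (by omega)).1
    have h2 := run_mono h (show k + 1 ≤ k' by omega) (by omega)
    have h3 := hk'.2
    rw [← heq] at h3
    linarith
  have hi2 : ∀ k ∈ B2, ∀ k' ∈ B2, k < k' → c k ≠ c k' := by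
    intro k hk k' hk' hlt heq
    rw [hB2, Finset.mem_filter, Finset.mem_range] at hk hk'
    have h1 := (h.low k' (by omega)).2.1
    have h2 := run_mono h (show k + 1 ≤ k' by omega) (by omega)
    have h3 := hk.2
    rw [heq] at h3
    linarith
  have hc1 : B1.card ≤ Fintype.card ι := by
    rw [← Finset.card_univ]
    refine Finset.card_le_card_of_injOn (fun k => c (k + 1)) (fun k _ => by simp) ?_
    intro k hk k' hk' heq
    by_contra hne
    rcases lt_or_gt_of_ne hne with h1 | h1
    · exact hi1 k hk k' hk' h1 heq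
    · exact hi1 k' hk' k hk h1 heq.symm
  have hc2 : B2.card ≤ Fintype.card ι := by
    rw [← Finset.card_univ]
    refine Finset.card_le_card_of_injOn (fun k => c k) (fun k _ => by simp) ?_
    intro k hk k' hk' heq
    by_contra hne
    rcases lt_or_gt_of_ne hne with h1 | h1
    · exact hi2 k hk k' hk' h1 heq
    · exact hi2 k' hk' k hk h1 heq.symm
  have h1 := Finset.card_le_card hsub
  rw [Finset.card_range] at h1
  have h2 := Finset.card_union_le (Ev S m x c) (B1 ∪ B2)
  have h3 := Finset.card_union_le B1 B2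
  omega

end Pool.Agent.Work.MP_e64a38_co.Env
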