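import Pool.Agent.Work.MP_e64a38_co.Env.Defs

/-!
# Module Crs (M): the crossings

`crossing`: let `t = c k`, `s = c (k + 1)`, `s ≠ t`. Both chords lie over `x k` and over `x (k + 1)` (from
`Low` and `Ev`: `a s < x k < x (k + 1) < b s`, `a t < x k < x (k + 1) < b t`), so `v t (x k) < v s (x k)` and
`v s (x (k+1)) < v t (x (k+1))`. Subtract: `0 < (p t - p s) (x (k+1) - x k)`. `z = cr S s t` is the solution of
`v s z = v t z`, and `(p t - p s) (z - w) = v s w - v t w` for all `w`, so `x k < z < x (k + 1)`.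
`a s < a t`: otherwise `a t ≤ a s < x k < z`, so `v t (a s) < v s (a s) = φ (a s)`; but `a t = a s` gives
`v t (a s) = φ (a s)`, and `a t < a s < b t` gives `φ (a s) < v t (a s)` (`above`). In the same way `b s < b t`
(otherwise `z < x (k+1) < b t ≤ b s` and `v s (b t) < v t (b t) = φ (b t)`).
`Tk.left`, `Tk.right`: from `(p t - p s) (z - w) = v s w - v t w`.
-/

set_option autoImplicit false

namespace Pool.Agent.Work.MP_e64a38_co.Env

variable {ι : Type*}

theorem Tk.left {S : Sys ι} {x y z : ℝ} {s t : ι} (h : Tk S x y z s t) {w : ℝ} (hw : w < z) :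
    S.v t w < S.v s w := by
  have h1 := h.eq
  have h2 := mul_pos (sub_pos.2 h.sl) (sub_pos.2 hw)
  unfold Sys.v at *
  nlinarith

theorem Tk.right {S : Sys ι} {x y z : ℝ} {s t : ι} (h : Tk S x y z s t) {w : ℝ} (hw : z < w) :
    S.v s w < S.v t w := by
  have h1 := h.eq
  have h2 := mul_pos (sub_pos.2 h.sl) (sub_pos.2 hw)
  unfold Sys.v at *
  nlinarith

theorem crossing {S : Sys ι} {m : ℕ} {x : ℕ → ℝ} {c : ℕ → ι} (h : Run S m x c) {k : ℕ}
    (hk : k ∈ Ev S m x c) : Tk S (x k) (x (k + 1)) (zz S c k) (c (k + 1)) (c k) := by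
  classical
  have hk' := (Finset.mem_filter.1 hk)
  have hkm : k < m := Finset.mem_range.1 hk'.1
  obtain ⟨hsx, hxt⟩ := hk'.2
  have hinc := h.inc k hkm
  have hne := h.ne k hkm
  obtain ⟨t1, t2, t3⟩ := h.low k hkm.le
  obtain ⟨s1, s2, s3⟩ := h.low (k + 1) hkm
  have e1 : S.v (c k) (x k) < S.v (c (k + 1)) (x k) :=
    t3 _ hne.symm hsx (hinc.trans s2)
  have e2 : S.v (c (k + 1)) (x (k + 1)) < S.v (c k) (x (k + 1)) :=
    s3 _ hne (t1.trans hinc) hxt
  have hsl : S.p (c (k + 1)) < S.p (c k) := by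
    unfold Sys.v at e1 e2
    by_contra hcon
    have h3 := mul_nonneg (sub_nonneg.2 (not_lt.1 hcon)) (sub_pos.2 hinc).le
    nlinarith
  have hpos : 0 < S.p (c k) - S.p (c (k + 1)) := sub_pos.2 hsl
  obtain ⟨z, hz⟩ : ∃ z : ℝ, z = zz S c k := ⟨_, rfl⟩
  have hz1 : (S.p (c k) - S.p (c (k + 1))) * z = S.q (c (k + 1)) - S.q (c k) := by
    rw [hz, zz, cr]
    field_simp
  rw [← hz]
  have key : ∀ w, (S.p (c k) - S.p (c (k + 1))) * (z - w) =
      S.v (c (k + 1)) w - S.v (c k) w := by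
    intro w
    unfold Sys.v
    linear_combination hz1
  have hxz : x k < z := by
    have h1 := key (x k)
    have h2 : 0 < (S.p (c k) - S.p (c (k + 1))) * (z - x k) := by
      rw [h1]
      linarith
    exact sub_pos.1 ((mul_pos_iff_of_pos_left hpos).1 h2)
  have hzy : z < x (k + 1) := by
    have h1 := key (x (k + 1))
    have h2 : 0 < (S.p (c k) - S.p (c (k + 1))) * (x (k + 1) - z) := by
      linarith
    exact sub_pos.1 ((mul_pos_iff_of_pos_left hpos).1 h2)
  refine ⟨hxz, hzy, hsl, ?_, ?_, ?_, t1, s2⟩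
  · have h1 := key z
    rw [sub_self, mul_zero] at h1
    linarith
  · by_contra hcon
    have hcon' := not_lt.1 hcon
    have h1 := key (S.a (c (k + 1)))
    have h2 := mul_pos hpos (sub_pos.2 (hsx.trans hxz))
    have h3 : S.v (c (k + 1)) (S.a (c (k + 1))) = S.φ (S.a (c (k + 1))) := S.ea _
    rcases eq_or_lt_of_le hcon' with h4 | h4
    · have h5 : S.v (c k) (S.a (c k)) = S.φ (S.a (c k)) := S.ea _
      rw [h4] at h5
      linarith
    · have h5 : S.φ (S.a (c (k + 1))) < S.v (c k) (S.a (c (k + 1))) :=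
        S.above (c k) _ h4 (by linarith)
      linarith
  · by_contra hcon
    have hcon' := not_lt.1 hcon
    have h1 := key (S.b (c k))
    have h2 := mul_pos hpos (sub_pos.2 (hzy.trans hxt))
    have h3 : S.v (c k) (S.b (c k)) = S.φ (S.b (c k)) := S.eb _
    rcases eq_or_lt_of_le hcon' with h4 | h4
    · have h5 : S.v (c (k + 1)) (S.b (c (k + 1))) = S.φ (S.b (c (k + 1))) := S.eb _
      rw [← h4] at h5
      linarith
    · have h5 : S.φ (S.b (c k)) < S.v (c (k + 1)) (S.b (c k)) :=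
        S.above (c (k + 1)) _ (by linarith) h4
      linarith

end Pool.Agent.Work.MP_e64a38_co.Env
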