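import Mathlib

/-!
# Lower envelopes of the chords of a convex curve : definitions (fixed file)

`Sys` : chords of a strictly convex curve `y = φ x` (chord `i` is the line `y = p i * x + q i` over the
interval from `a i` to `b i`, its two ends lie on the curve, it is above the curve in between).
`Run S m x c` : the chord `c k` is strictly the lowest one over the point `x k`, `x 0 < … < x m`, and
`c k ≠ c (k + 1)`: so the lower envelope has at least `m + 1` pieces.
`Ev` : the indices `k` of the crossings: both `c k` and `c (k + 1)` lie over `x k` and over `x (k + 1)`.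
`Tk S x y z s t` : `s` takes over `t` at `z`, between `x` and `y`.
-/

set_option autoImplicit false

namespace Pool.Agent.Work.MP_e64a38_co.Env

variable {ι : Type*}

/-- chords of a strictly convex curve -/
structure Sys (ι : Type*) where
  a : ι → ℝ
  b : ι → ℝ
  p : ι → ℝ
  q : ι → ℝ
  φ : ℝ → ℝ
  lt : ∀ i, a i < b i
  ea : ∀ i, p i * a i + q i = φ (a i)
  eb : ∀ i, p i * b i + q i = φ (b i)
  above : ∀ i x, a i < x → x < b i → φ x < p i * x + q i

/-- the value at `x` of the line of chord `i` -/
def Sys.v (S : Sys ι) (i : ι) (x : ℝ) : ℝ := S.p i * x + S.q i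

/-- chord `i` lies over `x` and is strictly below all other chords over `x` -/
def Low (S : Sys ι) (x : ℝ) (i : ι) : Prop :=
  S.a i < x ∧ x < S.b i ∧ ∀ j, j ≠ i → S.a j < x → x < S.b j → S.v i x < S.v j x

/-- `c 0, …, c m` are the lowest chords over the points `x 0 < … < x m`, consecutive ones different -/
structure Run (S : Sys ι) (m : ℕ) (x : ℕ → ℝ) (c : ℕ → ι) : Prop where
  inc : ∀ k < m, x k < x (k + 1)
  low : ∀ k ≤ m, Low S (x k) (c k)
  ne : ∀ k < m, c k ≠ c (k + 1)

/-- the crossings -/
noncomputable def Ev (S : Sys ι) (m : ℕ) (x : ℕ → ℝ) (c : ℕ → ι) : Finset ℕ :=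
  (Finset.range m).filter (fun k => S.a (c (k + 1)) < x k ∧ x (k + 1) < S.b (c k))

/-- the point where the lines of `s` and `t` meet -/
noncomputable def cr (S : Sys ι) (s t : ι) : ℝ := (S.q s - S.q t) / (S.p t - S.p s)

/-- the point of crossing number `k` -/
noncomputable def zz (S : Sys ι) (c : ℕ → ι) (k : ℕ) : ℝ := cr S (c (k + 1)) (c k)

/-- `s` takes over `t` at `z`, between `x` and `y` -/
structure Tk (S : Sys ι) (x y z : ℝ) (s t : ι) : Prop where
  xz : x < z
  zy : z < y
  sl : S.p s < S.p t
  eq : S.v s z = S.v t z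
  aa : S.a s < S.a t
  bb : S.b s < S.b t
  ax : S.a t < x
  yb : y < S.b s

/-- the crossings near the left ends -/
noncomputable def LU (S : Sys ι) (ε : ℝ) (m : ℕ) (x : ℕ → ℝ) (c : ℕ → ι) : Finset ℕ :=
  open Classical in (Ev S m x c).filter
    (fun k => zz S c k - S.a (c (k + 1)) ≤ ε * (S.b (c (k + 1)) - zz S c k))

/-- the crossings near the right ends -/
noncomputable def RU (S : Sys ι) (ε : ℝ) (m : ℕ) (x : ℕ → ℝ) (c : ℕ → ι) : Finset ℕ :=
  open Classical in (Ev S m x c).filter
    (fun k => S.b (c k) - zz S c k ≤ ε * (zz S c k - S.a (c k)))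

/-- the property of the curve which is used: if a crossing `z` of `s`, `t` is near the left end of `s`
and the right end of `t` is much further away than the right end of `s` then the left end of `t` is
much nearer than the left end of `s` -/
def Str (S : Sys ι) (ε : ℝ) : Prop :=
  ∀ s t z, S.v s z = S.v t z → S.a s < S.a t → S.a t < z → z < S.b s → S.b s < S.b t →
    z - S.a s ≤ ε * (S.b s - z) → S.b s - z ≤ ε * (S.b t - z) → 2 * (z - S.a t) ≤ z - S.a s

/-- the mirror image of a system -/
def Sys.mir (S : Sys ι) : Sys ι where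
  a i := -S.b i
  b i := -S.a i
  p i := -S.p i
  q i := S.q i
  φ x := S.φ (-x)
  lt i := neg_lt_neg (S.lt i)
  ea i := by simpa using S.eb i
  eb i := by simpa using S.ea i
  above i x h1 h2 := by simpa using S.above i (-x) (by linarith) (by linarith)

end Pool.Agent.Work.MP_e64a38_co.Env
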