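import Pool.Agent.Work.MP_e64a38_co.Env.Crs

/-!
# Module Fct (M): three facts on the order of the crossings

`lt_of_run`: `x` is increasing up to `m` (induction). `later`: `i = c k` is the lowest chord over `x k`, and
`j = c l` lies over `x k` (`a j < x k < x l < b j`), so `v i (x k) < v j (x k)`; `j` is the lowest over `x l`, and
`i` lies over `x l`, so `v j (x l) < v i (x l)`; so `p j < p i` and `v i w < v j w` for all `w ≤ x k`. If
`a i ≤ a j` then `a i ≤ a j < x k`, `v i (a j) < v j (a j) = φ (a j)`: contradiction (`a i = a j` : equality;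
`a i < a j < b i` : `above`).
`factA`: `t = c k = c l`, `s = c (k + 1)`. If `x l < b s` then `s` lies over `x l` (`a s < x k < x l`), `s ≠ t`,
so `v t (x l) < v s (x l)`; but `zz k < x (k + 1) ≤ x l` and `Tk.right` gives `v s (x l) < v t (x l)`.
`factB`: `s = c (k + 1) = c (l + 1)`, `u = c l ≠ s`. If `a u < x (k + 1)` then `u` lies over `x (k + 1)`
(`x (k + 1) ≤ x l < b u`), so `v s (x (k+1)) < v u (x (k+1))`, but `x (k + 1) ≤ x l < zz l` and `Tk.left` (for the
crossing `l`) gives `v u (x (k+1)) < v s (x (k+1))`.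
-/

set_option autoImplicit false

namespace Pool.Agent.Work.MP_e64a38_co.Env

variable {ι : Type*}

theorem lt_of_run {S : Sys ι} {m : ℕ} {x : ℕ → ℝ} {c : ℕ → ι} (h : Run S m x c) {k l : ℕ}
    (hkl : k < l) (hl : l ≤ m) : x k < x l := by
  induction l with
  | zero => omega
  | succ l ih =>
    have h1 := h.inc l (by omega)
    by_cases hk : k = l
    · subst hk
      exact h1
    · exact (ih (by omega) (by omega)).trans h1

private theorem fct_le {S : Sys ι} {m : ℕ} {x : ℕ → ℝ} {c : ℕ → ι} (h : Run S m x c) {k l : ℕ}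
    (hkl : k ≤ l) (hl : l ≤ m) : x k ≤ x l := by
  rcases eq_or_lt_of_le hkl with h1 | h1
  · subst h1
    exact le_rfl
  · exact (lt_of_run h h1 hl).le

theorem later {S : Sys ι} {m : ℕ} {x : ℕ → ℝ} {c : ℕ → ι} (h : Run S m x c) {k l : ℕ}
    (hkl : k < l) (hl : l ≤ m) (hne : c k ≠ c l) (h1 : S.a (c l) < x k) (h2 : x l < S.b (c k)) :
    S.a (c l) < S.a (c k) := by
  have hx := lt_of_run h hkl hl
  obtain ⟨a1, a2, a3⟩ := h.low k (hkl.le.trans hl)
  obtain ⟨b1, b2, b3⟩ := h.low l hl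
  have e1 : S.v (c k) (x k) < S.v (c l) (x k) := a3 _ hne.symm h1 (hx.trans b2)
  have e2 : S.v (c l) (x l) < S.v (c k) (x l) := b3 _ hne (a1.trans hx) h2
  by_contra hcon
  have hcon' := not_lt.1 hcon
  have e3 : S.v (c k) (S.a (c l)) < S.v (c l) (S.a (c l)) := by
    unfold Sys.v at *
    have hs : 0 < (S.p (c k) - S.p (c l)) * (x l - x k) := by nlinarith
    have hp : 0 < S.p (c k) - S.p (c l) := (mul_pos_iff_of_pos_right (sub_pos.2 hx)).1 hs
    have h3 := mul_pos hp (sub_pos.2 h1)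
    nlinarith
  have e4 : S.v (c l) (S.a (c l)) = S.φ (S.a (c l)) := S.ea _
  rcases eq_or_lt_of_le hcon' with h4 | h4
  · have h5 : S.v (c k) (S.a (c k)) = S.φ (S.a (c k)) := S.ea _
    rw [h4] at h5
    linarith
  · have h5 : S.φ (S.a (c l)) < S.v (c k) (S.a (c l)) := S.above (c k) _ h4 (h1.trans a2)
    linarith

theorem factA {S : Sys ι} {m : ℕ} {x : ℕ → ℝ} {c : ℕ → ι} (h : Run S m x c) {k l : ℕ}
    (hk : k ∈ Ev S m x c) (hl : l ∈ Ev S m x c) (hkl : k < l) (hc : c k = c l) :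
    S.b (c (k + 1)) ≤ x l := by
  classical
  by_contra hcon
  have hcon' := not_le.1 hcon
  have hk' := (Finset.mem_filter.1 hk)
  have hkm : k < m := Finset.mem_range.1 hk'.1
  have hl' := (Finset.mem_filter.1 hl)
  have hlm : l < m := Finset.mem_range.1 hl'.1
  have hx := lt_of_run h hkl hlm.le
  obtain ⟨-, -, b3⟩ := h.low l hlm.le
  have hne := h.ne k hkm
  have e1 : S.v (c l) (x l) < S.v (c (k + 1)) (x l) :=
    b3 _ (by rw [← hc]; exact hne.symm) (hk'.2.1.trans hx) hcon'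
  have hT := crossing h hk
  have e2 : S.v (c (k + 1)) (x l) < S.v (c k) (x l) :=
    hT.right (lt_of_lt_of_le hT.zy (fct_le h hkl hlm.le))
  rw [hc] at e2
  exact lt_asymm e1 e2

theorem factB {S : Sys ι} {m : ℕ} {x : ℕ → ℝ} {c : ℕ → ι} (h : Run S m x c) {k l : ℕ}
    (hk : k ∈ Ev S m x c) (hl : l ∈ Ev S m x c) (hkl : k < l) (hc : c (k + 1) = c (l + 1)) :
    x (k + 1) ≤ S.a (c l) := by
  classical
  by_contra hcon
  have hcon' := not_le.1 hcon
  have hl' := (Finset.mem_filter.1 hl)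
  have hlm : l < m := Finset.mem_range.1 hl'.1
  have hxl := fct_le h (Nat.succ_le_of_lt hkl) hlm.le
  obtain ⟨-, a2, -⟩ := h.low l hlm.le
  obtain ⟨-, -, b3⟩ := h.low (k + 1) (by omega)
  have hne := h.ne l hlm
  have e1 : S.v (c (k + 1)) (x (k + 1)) < S.v (c l) (x (k + 1)) :=
    b3 _ (by rw [hc]; exact hne) hcon' (lt_of_le_of_lt hxl a2)
  have hT := crossing h hl
  have e2 : S.v (c l) (x (k + 1)) < S.v (c (l + 1)) (x (k + 1)) :=
    hT.left (lt_of_le_of_lt hxl hT.xz)
  rw [← hc] at e2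
  exact lt_asymm e1 e2

end Pool.Agent.Work.MP_e64a38_co.Env
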