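import Pool.Agent.Work.MP_e64a38_co.Env.LuI

/-!
# Module LuC (S-M): at most `3 n` crossings near the left ends

Split `LU`: the `k` which are the last element of `LU` with their value `c k` (at most `card ι`, `c` is injective
on them), the `k` which are the first element of `LU` with their value `c k` (at most `card ι`), and the rest `M`:
for `k ∈ M` there are `j < k < l` in `LU` with `c j = c k = c l`, so `strong` and `charge_card` apply.
-/

set_option autoImplicit false

namespace Pool.Agent.Work.MP_e64a38_co.Env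

variable {ι : Type*}

theorem lu_card [Fintype ι] {S : Sys ι} {ε : ℝ} (hε : 0 < ε) (hε2 : 2 * ε ≤ 1) (hS : Str S ε)
    {m : ℕ} {x : ℕ → ℝ} {c : ℕ → ι} (h : Run S m x c) :
    (LU S ε m x c).card ≤ 3 * Fintype.card ι := by
  classical
  set L1 : Finset ℕ := (LU S ε m x c).filter (fun k => ∀ l ∈ LU S ε m x c, k < l → c l ≠ c k)
    with hL1
  set L2 : Finset ℕ := (LU S ε m x c).filter (fun k => ∀ j ∈ LU S ε m x c, j < k → c j ≠ c k)
    with hL2
  set M : Finset ℕ := (LU S ε m x c).filter (fun k => (∃ l ∈ LU S ε m x c, k < l ∧ c l = c k) ∧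
    ∃ j ∈ LU S ε m x c, j < k ∧ c j = c k) with hM
  have h1 : L1.card ≤ Fintype.card ι := by
    rw [← Finset.card_univ]
    refine Finset.card_le_card_of_injOn c (fun k _ => Finset.mem_coe.2 (Finset.mem_univ _)) ?_
    intro k hk l hl hkl
    have hk' := Finset.mem_filter.1 (Finset.mem_coe.1 hk)
    have hl' := Finset.mem_filter.1 (Finset.mem_coe.1 hl)
    rcases Nat.lt_trichotomy k l with h0 | h0 | h0
    · exact absurd hkl.symm (hk'.2 l hl'.1 h0)
    · exact h0
    · exact absurd hkl (hl'.2 k hk'.1 h0)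
  have h2 : L2.card ≤ Fintype.card ι := by
    rw [← Finset.card_univ]
    refine Finset.card_le_card_of_injOn c (fun k _ => Finset.mem_coe.2 (Finset.mem_univ _)) ?_
    intro k hk l hl hkl
    have hk' := Finset.mem_filter.1 (Finset.mem_coe.1 hk)
    have hl' := Finset.mem_filter.1 (Finset.mem_coe.1 hl)
    rcases Nat.lt_trichotomy k l with h0 | h0 | h0
    · exact absurd hkl (hl'.2 k hk'.1 h0)
    · exact h0
    · exact absurd hkl.symm (hk'.2 l hl'.1 h0)
  have h3 : M.card ≤ Fintype.card ι := by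
    refine charge_card hε hε2 h M ?_
    intro k hk
    obtain ⟨hk1, ⟨l, hl, hkl, hcl⟩, j, hj, hjk, hcj⟩ := Finset.mem_filter.1 hk
    exact ⟨hk1, strong hε hS h hk1 hl hkl hcl.symm, j, hj, hjk, hcj⟩
  have hsub : LU S ε m x c ⊆ L1 ∪ (L2 ∪ M) := by
    intro k hk
    rw [Finset.mem_union, Finset.mem_union]
    by_cases a1 : ∀ l ∈ LU S ε m x c, k < l → c l ≠ c k
    · exact Or.inl (Finset.mem_filter.2 ⟨hk, a1⟩)
    · by_cases a2 : ∀ j ∈ LU S ε m x c, j < k → c j ≠ c k
      · exact Or.inr (Or.inl (Finset.mem_filter.2 ⟨hk, a2⟩))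
      · push Not at a1 a2
        exact Or.inr (Or.inr (Finset.mem_filter.2 ⟨hk, a1, a2⟩))
  have h4 := Finset.card_le_card hsub
  have h5 := Finset.card_union_le L1 (L2 ∪ M)
  have h6 := Finset.card_union_le L2 M
  omega

end Pool.Agent.Work.MP_e64a38_co.Env
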