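import Pool.Agent.Work.MP_e64a38_co.Env.LuS

/-!
# Module LuI (M): the charging

For `k ∈ M` let `t = c k`, `N = c (k + 1)` and `j` as in the hypothesis, `s = c (j + 1)`: `nested`: `a N < a s`;
`crossing` at `j`: `a s < a t` and `a t < x j < x (j + 1) < b s`; `factA`: `b s ≤ x k`. So the set
`Cand k = {i | a N < a i ∧ a i < a t ∧ b i ≤ x k}` contains `s`; let `i = i k` be an element of `Cand k` with the
largest `b i`: `a N < a i < a t < b i ≤ x k` (`a t < b s ≤ b i`). Claim: `k ↦ i k` is injective on `M`. Let `k < l`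
in `M`, `i = i k = i l`, `t1 = c k`, `N1 = c (k + 1)`, `t2 = c l`, `N2 = c (l + 1)`; `a t2 < b i ≤ x k`.
(i) `N1 ≠ N2`, otherwise `factB`: `x (k + 1) ≤ a t2 < x k`.
(ii) `b N1 ≤ x l`: assume `x l < b N1`. `N1 ≠ t2` as `a N1 < a i < a t2`, so `k + 1 < l` and `later` for
`k + 1 < l` (`a t2 < x k < x (k + 1)`, `x l < b N1`) gives `a t2 < a N1`, contradiction.
(iii) `a N1 ≤ a N2`: otherwise `N1 ∈ Cand l` (`a N2 < a N1 < a i < a t2`, (ii)), so `b N1 ≤ b i ≤ x k`, but
`x (k + 1) < b N1` (`Tk.yb`).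
(iv) with `z = zz k < z' = zz l`: `2 (z' - a t2) ≤ z' - a N2 ≤ z' - a N1 = (z' - z) + (z - a N1)` and
`z - a N1 ≤ ε (b N1 - z) ≤ ε (z' - z)` (`LU` at `k`, `b N1 ≤ x l < z'`), so `z' - a t2 < z' - z`, i.e.
`z < a t2`, but `a t2 < b i ≤ x k < z`. Contradiction.
-/

set_option autoImplicit false

namespace Pool.Agent.Work.MP_e64a38_co.Env

variable {ι : Type*}

/-- the candidates for the charge of crossing `k` -/
private def Cand (S : Sys ι) (x : ℕ → ℝ) (c : ℕ → ι) (k : ℕ) (i : ι) : Prop :=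
  S.a (c (k + 1)) < S.a i ∧ S.a i < S.a (c k) ∧ S.b i ≤ x k

private theorem mem_LU {S : Sys ι} {ε : ℝ} {m : ℕ} {x : ℕ → ℝ} {c : ℕ → ι} {k : ℕ}
    (hk : k ∈ LU S ε m x c) : k ∈ Ev S m x c ∧
      zz S c k - S.a (c (k + 1)) ≤ ε * (S.b (c (k + 1)) - zz S c k) := by
  classical
  unfold LU at hk
  exact Finset.mem_filter.1 hk

private theorem mem_Ev {S : Sys ι} {m : ℕ} {x : ℕ → ℝ} {c : ℕ → ι} {k : ℕ}
    (hk : k ∈ Ev S m x c) : k < m ∧ S.a (c (k + 1)) < x k ∧ x (k + 1) < S.b (c k) := by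
  unfold Ev at hk
  rw [Finset.mem_filter, Finset.mem_range] at hk
  exact ⟨hk.1, hk.2.1, hk.2.2⟩

private theorem charge_aux {S : Sys ι} {ε : ℝ} (hε : 0 < ε) (hε2 : 2 * ε ≤ 1) {m : ℕ}
    {x : ℕ → ℝ} {c : ℕ → ι} (h : Run S m x c) {k l : ℕ} (hkl : k < l)
    (hk : k ∈ LU S ε m x c) (hl : l ∈ LU S ε m x c)
    (hsl : 2 * (zz S c l - S.a (c l)) ≤ zz S c l - S.a (c (l + 1))) {i : ι}
    (ck : Cand S x c k i) (cl : Cand S x c l i) (bl : S.a (c l) < S.b i)
    (hmax : ∀ i', Cand S x c l i' → S.b i' ≤ S.b i) : False := by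
  obtain ⟨hkE, hkL⟩ := mem_LU hk
  obtain ⟨hlE, hlL⟩ := mem_LU hl
  obtain ⟨hkm, -, -⟩ := mem_Ev hkE
  obtain ⟨hlm, -, -⟩ := mem_Ev hlE
  have T1 := crossing h hkE
  have T2 := crossing h hlE
  obtain ⟨c1, c2, c3⟩ := ck
  obtain ⟨d1, d2, d3⟩ := cl
  have e1 : x k < zz S c k := T1.xz
  have e2 : zz S c k < x (k + 1) := T1.zy
  have e3 : x l < zz S c l := T2.xz
  have e4 : x (k + 1) < S.b (c (k + 1)) := T1.yb
  have e5 : x (k + 1) ≤ x l := by
    rcases Nat.lt_or_ge (k + 1) l with h1 | h1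
    · exact (lt_of_run h h1 hlm.le).le
    · have : l = k + 1 := by omega
      rw [this]
  -- (i)
  have hN : c (k + 1) ≠ c (l + 1) := by
    intro hN
    have := factB h hkE hlE hkl hN
    linarith
  -- (ii)
  have h2 : S.b (c (k + 1)) ≤ x l := by
    by_contra hcon
    push Not at hcon
    have hne : c (k + 1) ≠ c l := by
      intro hh
      rw [hh] at c1
      linarith
    have hkl' : k + 1 < l := by
      rcases Nat.lt_or_ge (k + 1) l with h1 | h1
      · exact h1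
      · exfalso
        have : l = k + 1 := by omega
        exact hne (by rw [this])
    have := later h hkl' hlm.le hne (by linarith) hcon
    linarith
  -- (iii)
  have h3 : S.a (c (k + 1)) ≤ S.a (c (l + 1)) := by
    by_contra hcon
    push Not at hcon
    have := hmax (c (k + 1)) ⟨hcon, by linarith, h2⟩
    linarith
  -- (iv)
  have h4 : ε * (S.b (c (k + 1)) - zz S c k) ≤ ε * (zz S c l - zz S c k) :=
    mul_le_mul_of_nonneg_left (by linarith) hε.le
  have h5 : 0 < zz S c l - zz S c k := by linarith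
  have h6 : ε * (zz S c l - zz S c k) ≤ (1 / 2) * (zz S c l - zz S c k) :=
    mul_le_mul_of_nonneg_right (by linarith) h5.le
  nlinarith

theorem charge_card [Fintype ι] {S : Sys ι} {ε : ℝ} (hε : 0 < ε) (hε2 : 2 * ε ≤ 1) {m : ℕ}
    {x : ℕ → ℝ} {c : ℕ → ι} (h : Run S m x c) (M : Finset ℕ)
    (hM : ∀ k ∈ M, k ∈ LU S ε m x c ∧
      2 * (zz S c k - S.a (c k)) ≤ zz S c k - S.a (c (k + 1)) ∧
      ∃ j ∈ LU S ε m x c, j < k ∧ c j = c k) : M.card ≤ Fintype.card ι := by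
  classical
  have hex : ∀ k ∈ M, ∃ i, Cand S x c k i ∧ S.a (c k) < S.b i ∧
      ∀ i', Cand S x c k i' → S.b i' ≤ S.b i := by
    intro k hk
    obtain ⟨hkL, hst, j, hj, hjk, hc⟩ := hM k hk
    have hkE := (mem_LU hkL).1
    have hjE := (mem_LU hj).1
    have T := crossing h hjE
    have n1 := nested hε hε2 h hj hkL hjk hc hst
    have n2 := factA h hjE hkE hjk hc
    have n3 : S.a (c (j + 1)) < S.a (c j) := T.aa
    have n4 : S.a (c j) < x j := T.ax
    have n5 : x (j + 1) < S.b (c (j + 1)) := T.yb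
    have n6 : x j < x (j + 1) := T.xz.trans T.zy
    have hs : Cand S x c k (c (j + 1)) := ⟨n1, by rw [← hc]; exact n3, n2⟩
    obtain ⟨i, hi, hmax⟩ := Finset.exists_max_image
      (Finset.univ.filter (fun i => Cand S x c k i)) (fun i => S.b i)
      ⟨c (j + 1), by simpa using hs⟩
    rw [Finset.mem_filter] at hi
    refine ⟨i, hi.2, ?_, ?_⟩
    · have := hmax (c (j + 1)) (by simpa using hs)
      rw [← hc]
      linarith
    · intro i' hi'
      exact hmax i' (by simpa using hi')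
  haveI : Nonempty ι := ⟨c 0⟩
  choose! f hf using hex
  rw [← Finset.card_univ]
  refine Finset.card_le_card_of_injOn f (fun k _ => Finset.mem_coe.2 (Finset.mem_univ _)) ?_
  intro k hk l hl hfkl
  have hk' : k ∈ M := Finset.mem_coe.1 hk
  have hl' : l ∈ M := Finset.mem_coe.1 hl
  rcases Nat.lt_trichotomy k l with h1 | h1 | h1
  · exfalso
    have a1 := (hf k hk').1
    rw [hfkl] at a1
    exact charge_aux hε hε2 h h1 (hM k hk').1 (hM l hl').1 (hM l hl').2.1 a1 (hf l hl').1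
      (hf l hl').2.1 (hf l hl').2.2
  · exact h1
  · exfalso
    have a1 := (hf l hl').1
    rw [← hfkl] at a1
    exact charge_aux hε hε2 h h1 (hM l hl').1 (hM k hk').1 (hM k hk').2.1 a1 (hf k hk').1
      (hf k hk').2.1 (hf k hk').2.2

end Pool.Agent.Work.MP_e64a38_co.Env
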