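import Pool.Agent.Work.MP_e64a38_co.Env.Fct

/-!
# Module LuS (S-M): strong crossings, nested killers

`strong`: `t = c k = c l`, `s = c (k + 1)`, `s' = c (l + 1)`, `z = zz k < z' = zz l`. `factA`: `b s ≤ x l < z'`.
`LU` at `l` and `a s' < a t`, `b s' < b t`: `z' - a t ≤ z' - a s' ≤ ε (b s' - z') ≤ ε (b t - z')`. So
`b s - z ≤ z' - z ≤ z' - a t ≤ ε (b t - z') ≤ ε (b t - z)` (`a t < x k < z`). Now `Str` for `s, t, z`.
`nested`: `t = c j = c k`, `N = c (k + 1)`, `s = c (j + 1)`, `z' = zz j < z = zz k`. Assume `a s ≤ a N`. `factA`: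
`b s ≤ x k < z`. `LU` at `j`: `z' - a s ≤ ε (b s - z') ≤ ε (z - z') ≤ ε (z - a t)`. On the other side
`z' - a s ≥ z' - a N > a t - a N = (z - a N) - (z - a t) ≥ z - a t` (`hst`). So `z - a t < ε (z - a t)`, but
`0 < z - a t` and `ε ≤ 1 / 2`.
-/

set_option autoImplicit false

namespace Pool.Agent.Work.MP_e64a38_co.Env

variable {ι : Type*}

theorem strong {S : Sys ι} {ε : ℝ} (hε : 0 < ε) (hS : Str S ε) {m : ℕ} {x : ℕ → ℝ} {c : ℕ → ι}
    (h : Run S m x c) {k l : ℕ} (hk : k ∈ LU S ε m x c) (hl : l ∈ LU S ε m x c) (hkl : k < l)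
    (hc : c k = c l) : 2 * (zz S c k - S.a (c k)) ≤ zz S c k - S.a (c (k + 1)) := by
  classical
  have hkE : k ∈ Ev S m x c := (Finset.mem_filter.mp hk).1
  have hlE : l ∈ Ev S m x c := (Finset.mem_filter.mp hl).1
  have hkL := (Finset.mem_filter.mp hk).2
  have hlL := (Finset.mem_filter.mp hl).2
  have Tk1 := crossing h hkE
  have Tk2 := crossing h hlE
  have hA := factA h hkE hlE hkl hc
  have e1 := Tk1.xz
  have e2 := Tk1.zy
  have e3 := Tk1.aa
  have e4 := Tk1.bb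
  have e5 := Tk1.ax
  have e6 := Tk1.yb
  have g1 := Tk2.xz
  have g3 := Tk2.aa
  have g4 := Tk2.bb
  rw [← hc] at g3 g4
  refine hS (c (k + 1)) (c k) (zz S c k) Tk1.eq e3 (by linarith) (by linarith) e4 hkL ?_
  have h1 : S.b (c (l + 1)) - zz S c l ≤ S.b (c k) - zz S c k := by linarith
  have h2 := mul_le_mul_of_nonneg_left h1 hε.le
  linarith

theorem nested {S : Sys ι} {ε : ℝ} (hε : 0 < ε) (hε2 : 2 * ε ≤ 1) {m : ℕ} {x : ℕ → ℝ} {c : ℕ → ι}
    (h : Run S m x c) {j k : ℕ} (hj : j ∈ LU S ε m x c) (hk : k ∈ LU S ε m x c) (hjk : j < k)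
    (hc : c j = c k) (hst : 2 * (zz S c k - S.a (c k)) ≤ zz S c k - S.a (c (k + 1))) :
    S.a (c (k + 1)) < S.a (c (j + 1)) := by
  classical
  have hjE : j ∈ Ev S m x c := (Finset.mem_filter.mp hj).1
  have hkE : k ∈ Ev S m x c := (Finset.mem_filter.mp hk).1
  have hjL := (Finset.mem_filter.mp hj).2
  have Tk1 := crossing h hjE
  have Tk2 := crossing h hkE
  have hA := factA h hjE hkE hjk hc
  have e1 := Tk1.xz
  have e5 := Tk1.ax
  have g1 := Tk2.xz
  have g5 := Tk2.ax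
  rw [hc] at e5
  by_contra hcon
  push Not at hcon
  have h1 : S.b (c (j + 1)) - zz S c j ≤ zz S c k - S.a (c k) := by linarith
  have h2 := mul_le_mul_of_nonneg_left h1 hε.le
  have h3 : 0 < zz S c k - S.a (c k) := by linarith
  have h4 : 2 * ε * (zz S c k - S.a (c k)) ≤ 1 * (zz S c k - S.a (c k)) :=
    mul_le_mul_of_nonneg_right hε2 h3.le
  linarith

end Pool.Agent.Work.MP_e64a38_co.Env
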