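import Mathlib
import Pool.Agent.Work.MP_e64a38_co.Env.Defs

/-!
# Curves with quasisymmetric slope (fixed file)
-/

set_option autoImplicit false

namespace Pool.Agent.Work.MP_e64a38_co.Env

/-- the line through the points of the curve `y = φ x` over `a` and `b`, at `x` -/
noncomputable def chord (φ : ℝ → ℝ) (a b x : ℝ) : ℝ := φ a + (x - a) * ((φ b - φ a) / (b - a))

/-- `φ` is convex on `I` with supporting lines of slope `ψ`; `ψ` is strictly increasing and
`K`-quasisymmetric: it grows on adjacent intervals of equal length by amounts of ratio at most `K` -/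
structure QS (K : ℝ) (I : Set ℝ) (φ ψ : ℝ → ℝ) : Prop where
  conn : I.OrdConnected
  supp : ∀ u ∈ I, ∀ v ∈ I, φ u + ψ u * (v - u) ≤ φ v
  mono : StrictMonoOn ψ I
  right : ∀ x r, 0 < r → x - r ∈ I → x + r ∈ I → ψ (x + r) - ψ x ≤ K * (ψ x - ψ (x - r))
  left : ∀ x r, 0 < r → x - r ∈ I → x + r ∈ I → ψ x - ψ (x - r) ≤ K * (ψ (x + r) - ψ x)

end Pool.Agent.Work.MP_e64a38_co.Env
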