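import Pool.Agent.Work.MP_e64a38_co.Env.QDefs

/-!
# Module QEl (M): elementary facts on curves with quasisymmetric slope

`qs_strict`: `u < v` in `I`: let `w = (u + v) / 2 ∈ I`, `φ v ≥ φ w + ψ w (v - w)`, `φ w ≥ φ u + ψ u (w - u)` and
`ψ u < ψ w`; for `v < u`: `φ v ≥ φ w + ψ w (v - w)`, `φ w ≥ φ u + ψ u (w - u)`, `ψ w < ψ u`, `v - w < 0`.
`chord_above`: `λ = (x - a) / (b - a)`; the chord at `x` is `(1 - λ) φ a + λ φ b`, and `φ a > φ x + ψ x (a - x)`,
`φ b > φ x + ψ x (b - x)` (`qs_strict` at `x`).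
`qs_double`: `ψ (z + 2 r) - ψ z = (ψ (z + 2 r) - ψ (z + r)) + (ψ (z + r) - ψ z)` and `left` at `z + r` (for
`1 ≤ K`) gives `ψ (z + r) - ψ z ≤ K (ψ (z + 2 r) - ψ (z + r))`, so `(1 + 1 / K) (ψ (z + r) - ψ z) ≤ ψ (z + 2 r) - ψ z`;
induction on `N` (all points are in `I`, `OrdConnected`); then `ψ (z + 2 ^ N r) ≤ ψ b` by monotonicity.
`qs_mirror`: substitute `-x`; `φ (-x)` has the slopes `- ψ (-x)`.
`qs_mono_K`: `ψ x - ψ (x - r) ≥ 0`, `ψ (x + r) - ψ x ≥ 0`.
-/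

set_option autoImplicit false

namespace Pool.Agent.Work.MP_e64a38_co.Env

theorem qs_strict {K : ℝ} {I : Set ℝ} {φ ψ : ℝ → ℝ} (h : QS K I φ ψ) {u v : ℝ} (hu : u ∈ I)
    (hv : v ∈ I) (huv : u ≠ v) : φ u + ψ u * (v - u) < φ v := by
  rcases lt_or_gt_of_ne huv with huv | huv
  · have hw : (u + v) / 2 ∈ I := h.conn.out hu hv ⟨by linarith, by linarith⟩
    have h1 := h.supp _ hw _ hv
    have h2 := h.supp _ hu _ hw
    have h3 := h.mono hu hw (show u < (u + v) / 2 by linarith)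
    nlinarith
  · have hw : (u + v) / 2 ∈ I := h.conn.out hv hu ⟨by linarith, by linarith⟩
    have h1 := h.supp _ hw _ hv
    have h2 := h.supp _ hu _ hw
    have h3 := h.mono hw hu (show (u + v) / 2 < u by linarith)
    nlinarith

theorem chord_above {K : ℝ} {I : Set ℝ} {φ ψ : ℝ → ℝ} (h : QS K I φ ψ) {a b x : ℝ} (ha : a ∈ I)
    (hb : b ∈ I) (h1 : a < x) (h2 : x < b) : φ x < chord φ a b x := by
  have hx : x ∈ I := h.conn.out ha hb ⟨h1.le, h2.le⟩
  have e1 := qs_strict h hx ha (ne_of_gt h1)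
  have e2 := qs_strict h hx hb (ne_of_lt h2)
  have hab : 0 < b - a := by linarith
  have e3 : chord φ a b x = ((b - x) * φ a + (x - a) * φ b) / (b - a) := by
    unfold chord
    field_simp
    ring
  rw [e3, lt_div_iff₀ hab]
  have e4 : (b - x) * (φ x + ψ x * (a - x)) < (b - x) * φ a :=
    mul_lt_mul_of_pos_left e1 (by linarith)
  have e5 : (x - a) * (φ x + ψ x * (b - x)) < (x - a) * φ b :=
    mul_lt_mul_of_pos_left e2 (by linarith)
  nlinarith

theorem qs_double {K : ℝ} (hK : 1 ≤ K) {I : Set ℝ} {φ ψ : ℝ → ℝ} (h : QS K I φ ψ) (N : ℕ)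
    {z r b : ℝ} (hz : z ∈ I) (hb : b ∈ I) (hr : 0 < r) (hrb : z + 2 ^ N * r ≤ b) :
    (1 + 1 / K) ^ N * (ψ (z + r) - ψ z) ≤ ψ b - ψ z := by
  induction N generalizing r with
  | zero =>
    rw [pow_zero, one_mul] at hrb
    rw [pow_zero, one_mul]
    have h1 : z + r ∈ I := h.conn.out hz hb ⟨by linarith, hrb⟩
    have h2 := h.mono.monotoneOn h1 hb hrb
    linarith
  | succ N ih =>
    have hp : (1 : ℝ) ≤ 2 ^ N := one_le_pow₀ (by norm_num)
    have e1 : z + 2 ^ N * (2 * r) ≤ b := by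
      rw [pow_succ] at hrb
      linarith
    have e2 := ih (r := 2 * r) (by linarith) e1
    have e3 : z + 2 * r ≤ b := by nlinarith
    have m1 : z + r ∈ I := h.conn.out hz hb ⟨by linarith, by linarith⟩
    have m2 : z + 2 * r ∈ I := h.conn.out hz hb ⟨by linarith, e3⟩
    have e4 : ψ (z + r) - ψ z ≤ K * (ψ (z + 2 * r) - ψ (z + r)) := by
      have f1 : z + r - r = z := by ring
      have f2 : z + r + r = z + 2 * r := by ring
      have f3 := h.left (z + r) r hr (by rw [f1]; exact hz) (by rw [f2]; exact m2)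
      rwa [f1, f2] at f3
    have hK0 : 0 < K := by linarith
    have e5 : 1 / K * (ψ (z + r) - ψ z) ≤ ψ (z + 2 * r) - ψ (z + r) := by
      rw [one_div, inv_mul_le_iff₀ hK0]
      exact e4
    have e6 : (1 + 1 / K) * (ψ (z + r) - ψ z) ≤ ψ (z + 2 * r) - ψ z := by linarith
    have e7 : 0 ≤ (1 + 1 / K) ^ N := by positivity
    calc (1 + 1 / K) ^ (N + 1) * (ψ (z + r) - ψ z)
        = (1 + 1 / K) ^ N * ((1 + 1 / K) * (ψ (z + r) - ψ z)) := by rw [pow_succ]; ring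
      _ ≤ (1 + 1 / K) ^ N * (ψ (z + 2 * r) - ψ z) := mul_le_mul_of_nonneg_left e6 e7
      _ ≤ ψ b - ψ z := e2

theorem qs_mirror {K : ℝ} {I : Set ℝ} {φ ψ : ℝ → ℝ} (h : QS K I φ ψ) :
    QS K (Neg.neg ⁻¹' I) (fun x => φ (-x)) (fun x => -ψ (-x)) := by
  refine ⟨⟨fun x hx y hy z hz => ?_⟩, fun u hu v hv => ?_, fun x hx y hy hxy => ?_,
    fun x r hr h1 h2 => ?_, fun x r hr h1 h2 => ?_⟩
  · exact h.conn.out hy hx ⟨neg_le_neg hz.2, neg_le_neg hz.1⟩
  · have h1 := h.supp (-u) hu (-v) hv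
    show φ (-u) + -ψ (-u) * (v - u) ≤ φ (-v)
    linarith
  · have h1 := h.mono hy hx (neg_lt_neg hxy)
    show -ψ (-x) < -ψ (-y)
    linarith
  · have f1 : -x - r = -(x + r) := by ring
    have f2 : -x + r = -(x - r) := by ring
    have h3 := h.left (-x) r hr (by rw [f1]; exact h2) (by rw [f2]; exact h1)
    rw [f1, f2] at h3
    show -ψ (-(x + r)) - -ψ (-x) ≤ K * (-ψ (-x) - -ψ (-(x - r)))
    have e : -ψ (-x) - -ψ (-(x - r)) = ψ (-(x - r)) - ψ (-x) := by ring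
    rw [e]
    linarith
  · have f1 : -x - r = -(x + r) := by ring
    have f2 : -x + r = -(x - r) := by ring
    have h3 := h.right (-x) r hr (by rw [f1]; exact h2) (by rw [f2]; exact h1)
    rw [f1, f2] at h3
    show -ψ (-x) - -ψ (-(x - r)) ≤ K * (-ψ (-(x + r)) - -ψ (-x))
    have e : -ψ (-(x + r)) - -ψ (-x) = ψ (-x) - ψ (-(x + r)) := by ring
    rw [e]
    linarith

theorem qs_mono_K {K K' : ℝ} (hK : K ≤ K') {I : Set ℝ} {φ ψ : ℝ → ℝ} (h : QS K I φ ψ) :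
    QS K' I φ ψ := by
  refine ⟨h.conn, h.supp, h.mono, fun x r hr h1 h2 => ?_, fun x r hr h1 h2 => ?_⟩
  · have hx : x ∈ I := h.conn.out h1 h2 ⟨by linarith, by linarith⟩
    have h3 := h.mono h1 hx (show x - r < x by linarith)
    refine (h.right x r hr h1 h2).trans ?_
    exact mul_le_mul_of_nonneg_right hK (by linarith)
  · have hx : x ∈ I := h.conn.out h1 h2 ⟨by linarith, by linarith⟩
    have h3 := h.mono hx h2 (show x < x + r by linarith)
    refine (h.left x r hr h1 h2).trans ?_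
    exact mul_le_mul_of_nonneg_right hK (by linarith)

end Pool.Agent.Work.MP_e64a38_co.Env
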