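import Pool.Agent.Work.MP_e64a38_co.Env.QEl

/-!
# Module QHt (M): the heights of the chords above the curve

`L = z - a`, `R = b - z`, `A = φ a - φ z + ψ z L ≥ 0`, `B = φ b - φ z - ψ z R ≥ 0`:
`chord φ a b z - φ z = (R A + L B) / (L + R)` (the terms with `ψ z` cancel).
`ht_upper`: `A ≤ (ψ z - ψ a) L` (`supp` at `a`: `φ a + ψ a L ≤ φ z`), `B ≤ (ψ b - ψ z) R` (`supp` at `b`:
`φ b - ψ b R ≤ φ z`), so the height is at most `L R (ψ b - ψ a) / (L + R) ≤ L (ψ b - ψ a)`.
`ht_lower`: with `w = z + R / 2 ∈ I`: `φ b ≥ φ w + ψ w R / 2`, `φ w ≥ φ z + ψ z R / 2`, so `B ≥ (ψ w - ψ z) R / 2`; and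
`right` at `w`: `ψ b - ψ w ≤ K (ψ w - ψ z)`, so `ψ b - ψ z ≤ (1 + K) (ψ w - ψ z)` and
`B ≥ (ψ b - ψ z) R / (2 (1 + K))`; the height is at least `L B / (L + R)`, and `R / (L + R) ≥ 1 / 2` as `L ≤ R`.
-/

set_option autoImplicit false

namespace Pool.Agent.Work.MP_e64a38_co.Env

private theorem ht_eq {φ : ℝ → ℝ} {a b z : ℝ} (h : a < b) :
    (b - a) * (chord φ a b z - φ z) = (b - z) * (φ a - φ z) + (z - a) * (φ b - φ z) := by
  unfold chord
  have h0 : b - a ≠ 0 := by linarith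
  field_simp
  ring

theorem ht_upper {K : ℝ} {I : Set ℝ} {φ ψ : ℝ → ℝ} (h : QS K I φ ψ) {a b z : ℝ} (ha : a ∈ I)
    (hb : b ∈ I) (h1 : a < z) (h2 : z < b) :
    chord φ a b z - φ z ≤ (z - a) * (ψ b - ψ a) := by
  have hz : z ∈ I := h.conn.out ha hb ⟨h1.le, h2.le⟩
  have hab : a < b := h1.trans h2
  have e := ht_eq (φ := φ) (z := z) hab
  have s1 := h.supp a ha z hz
  have s2 := h.supp b hb z hz
  have m := h.mono ha hb hab
  have p1 : (b - z) * (φ a - φ z) ≤ (b - z) * (-(ψ a * (z - a))) :=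
    mul_le_mul_of_nonneg_left (by linarith) (by linarith)
  have p2 : (z - a) * (φ b - φ z) ≤ (z - a) * (ψ b * (b - z)) :=
    mul_le_mul_of_nonneg_left (by linarith) (by linarith)
  have p3 : 0 ≤ (z - a) * (z - a) * (ψ b - ψ a) :=
    mul_nonneg (mul_nonneg (by linarith) (by linarith)) (by linarith)
  have p4 : (b - a) * (chord φ a b z - φ z) ≤ (b - a) * ((z - a) * (ψ b - ψ a)) := by
    rw [e]
    nlinarith [p1, p2, p3]
  exact le_of_mul_le_mul_left p4 (by linarith)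

theorem ht_lower {K : ℝ} (hK : 1 ≤ K) {I : Set ℝ} {φ ψ : ℝ → ℝ} (h : QS K I φ ψ) {a b z : ℝ}
    (ha : a ∈ I) (hb : b ∈ I) (h1 : a < z) (h2 : z < b) (hLR : z - a ≤ b - z) :
    (z - a) * (ψ b - ψ z) ≤ 4 * (1 + K) * (chord φ a b z - φ z) := by
  have hz : z ∈ I := h.conn.out ha hb ⟨h1.le, h2.le⟩
  have hab : a < b := h1.trans h2
  have e := ht_eq (φ := φ) (z := z) hab
  set r : ℝ := (b - z) / 2 with hr
  have hr0 : 0 < r := by rw [hr]; linarith
  have hw : z + r ∈ I := h.conn.out hz hb ⟨by linarith, by rw [hr]; linarith⟩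
  have e1 : z + r - r = z := by ring
  have e2 : z + r + r = b := by rw [hr]; ring
  have q := h.right (z + r) r hr0 (by rw [e1]; exact hz) (by rw [e2]; exact hb)
  rw [e1, e2] at q
  have sA := h.supp z hz a ha
  have s1 := h.supp (z + r) hw b hb
  have s2 := h.supp z hz (z + r) hw
  have m := h.mono hz hw (by linarith : z < z + r)
  have eb : b - (z + r) = r := by linarith
  have ez : z + r - z = r := by ring
  rw [eb] at s1
  rw [ez] at s2
  have hB : (ψ (z + r) - ψ z) * r ≤ φ b - φ z - ψ z * (b - z) := by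
    have : b - z = 2 * r := by rw [hr]; ring
    rw [this]
    nlinarith [s1, s2]
  have hH : (z - a) * ((ψ (z + r) - ψ z) * r) ≤ (b - a) * (chord φ a b z - φ z) := by
    rw [e]
    have t1 : 0 ≤ (b - z) * (φ a - φ z + ψ z * (z - a)) :=
      mul_nonneg (by linarith) (by linarith)
    have t2 : (z - a) * ((ψ (z + r) - ψ z) * r) ≤ (z - a) * (φ b - φ z - ψ z * (b - z)) :=
      mul_le_mul_of_nonneg_left hB (by linarith)
    nlinarith [t1, t2]
  have hab4 : b - a ≤ 4 * r := by rw [hr]; linarith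
  have hHn : 0 ≤ chord φ a b z - φ z := by
    have : 0 ≤ (b - a) * (chord φ a b z - φ z) := by
      refine le_trans ?_ hH
      exact mul_nonneg (by linarith) (mul_nonneg (by linarith) hr0.le)
    exact nonneg_of_mul_nonneg_right this (by linarith)
  have h4 : r * ((z - a) * (ψ (z + r) - ψ z)) ≤ r * (4 * (chord φ a b z - φ z)) := by
    calc r * ((z - a) * (ψ (z + r) - ψ z)) = (z - a) * ((ψ (z + r) - ψ z) * r) := by ring
      _ ≤ (b - a) * (chord φ a b z - φ z) := hH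
      _ ≤ (4 * r) * (chord φ a b z - φ z) := mul_le_mul_of_nonneg_right hab4 hHn
      _ = r * (4 * (chord φ a b z - φ z)) := by ring
  have h5 := le_of_mul_le_mul_left h4 hr0
  have h6 : ψ b - ψ z ≤ (1 + K) * (ψ (z + r) - ψ z) := by linarith
  calc (z - a) * (ψ b - ψ z) ≤ (z - a) * ((1 + K) * (ψ (z + r) - ψ z)) :=
        mul_le_mul_of_nonneg_left h6 (by linarith)
    _ = (1 + K) * ((z - a) * (ψ (z + r) - ψ z)) := by ring
    _ ≤ (1 + K) * (4 * (chord φ a b z - φ z)) := mul_le_mul_of_nonneg_left h5 (by linarith)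
    _ = 4 * (1 + K) * (chord φ a b z - φ z) := by ring

end Pool.Agent.Work.MP_e64a38_co.Env
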