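import Pool.Agent.Work.MP_e64a38_co.Env.QHt

/-!
# Module QSt (S-M): the property `Str` for curves with quasisymmetric slope

`e = (1 / 2) ^ N ≤ 1`. `L_s = z - a`, `R_s = b - z`, `L_t = z - a'`, `R_t = b' - z`; `L_t < L_s ≤ e R_s ≤ R_s < R_t`.
`ht_lower` for `a', b'`: `L_t (ψ b' - ψ z) ≤ 4 (1 + K) H`, `H = chord φ a' b' z - φ z = chord φ a b z - φ z` and
`ht_upper`: `H ≤ L_s (ψ b - ψ a)`. `ψ z - ψ a ≤ K (ψ (z + L_s) - ψ z) ≤ K (ψ b - ψ z)` (`left` at `z` with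
`r = L_s`, `z + L_s ≤ b`), so `ψ b - ψ a ≤ (1 + K) (ψ b - ψ z)`. `qs_double` with `r = R_s`, `2 ^ N R_s ≤ R_t`:
`(1 + 1 / K) ^ N (ψ b - ψ z) ≤ ψ b' - ψ z`. So
`8 (1 + K) ^ 2 L_t (ψ b - ψ z) ≤ (1 + 1 / K) ^ N L_t (ψ b - ψ z) ≤ L_t (ψ b' - ψ z) ≤ 4 (1 + K) ^ 2 L_s (ψ b - ψ z)`,
and `ψ b - ψ z > 0`.
-/

set_option autoImplicit false

namespace Pool.Agent.Work.MP_e64a38_co.Env

theorem qs_strong {K : ℝ} (hK : 1 ≤ K) {N : ℕ} (hN : 8 * (1 + K) ^ 2 ≤ (1 + 1 / K) ^ N)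
    {I : Set ℝ} {φ ψ : ℝ → ℝ} (h : QS K I φ ψ) {a b a' b' z : ℝ} (ha : a ∈ I) (hb : b ∈ I)
    (ha' : a' ∈ I) (hb' : b' ∈ I) (haa : a < a') (haz : a' < z) (hzb : z < b) (hbb : b < b')
    (heq : chord φ a b z = chord φ a' b' z) (h1 : z - a ≤ (1 / 2) ^ N * (b - z))
    (h2 : b - z ≤ (1 / 2) ^ N * (b' - z)) : 2 * (z - a') ≤ z - a := by
  have he0 : (0 : ℝ) < (1 / 2) ^ N := by positivity
  have he1 : (1 / 2 : ℝ) ^ N ≤ 1 := pow_le_one₀ (by norm_num) (by norm_num)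
  have hz : z ∈ I := h.conn.out ha' hb ⟨haz.le, hzb.le⟩
  have hbz : 0 < b - z := by linarith
  have hL : z - a ≤ b - z := by nlinarith
  have low := ht_lower hK h ha' hb' haz (hzb.trans hbb) (by linarith)
  have upp := ht_upper h ha hb (haa.trans haz) hzb
  have hr : 0 < z - a := by linarith
  have hzr : z + (z - a) ∈ I := h.conn.out hz hb ⟨by linarith, by linarith⟩
  have hl := h.left z (z - a) hr (by rw [sub_sub_cancel]; exact ha) hzr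
  rw [sub_sub_cancel] at hl
  have hm : ψ (z + (z - a)) ≤ ψ b := h.mono.monotoneOn hzr hb (by linarith)
  have hd := qs_double hK h N hz hb' hbz (by
    have h3 : 2 ^ N * (b - z) ≤ 2 ^ N * ((1 / 2) ^ N * (b' - z)) :=
      mul_le_mul_of_nonneg_left h2 (by positivity)
    have h4 : (2 : ℝ) ^ N * ((1 / 2) ^ N * (b' - z)) = b' - z := by
      rw [← mul_assoc, ← mul_pow]; norm_num
    linarith)
  rw [add_sub_cancel] at hd
  have hD : 0 < ψ b - ψ z := by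
    have := h.mono hz hb hzb
    linarith
  have hLt : 0 < z - a' := by linarith
  have k1 : 8 * (1 + K) ^ 2 * (ψ b - ψ z) ≤ ψ b' - ψ z :=
    (mul_le_mul_of_nonneg_right hN hD.le).trans hd
  have k2 : (z - a') * (8 * (1 + K) ^ 2 * (ψ b - ψ z)) ≤ (z - a') * (ψ b' - ψ z) :=
    mul_le_mul_of_nonneg_left k1 hLt.le
  have k3 : ψ b - ψ a ≤ (1 + K) * (ψ b - ψ z) := by nlinarith
  have k4 : (z - a) * (ψ b - ψ a) ≤ (z - a) * ((1 + K) * (ψ b - ψ z)) :=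
    mul_le_mul_of_nonneg_left k3 hr.le
  have k5 : chord φ a' b' z - φ z ≤ (z - a) * ((1 + K) * (ψ b - ψ z)) := by
    rw [← heq]; exact upp.trans k4
  have hK4 : 0 < 4 * (1 + K) := by linarith
  have k6 : 4 * (1 + K) * (chord φ a' b' z - φ z)
      ≤ 4 * (1 + K) * ((z - a) * ((1 + K) * (ψ b - ψ z))) :=
    mul_le_mul_of_nonneg_left k5 hK4.le
  have k7 : (4 * (1 + K) ^ 2 * (ψ b - ψ z)) * (2 * (z - a'))
      ≤ (4 * (1 + K) ^ 2 * (ψ b - ψ z)) * (z - a) := by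
    have e1 : (4 * (1 + K) ^ 2 * (ψ b - ψ z)) * (2 * (z - a'))
        = (z - a') * (8 * (1 + K) ^ 2 * (ψ b - ψ z)) := by ring
    have e2 : (4 * (1 + K) ^ 2 * (ψ b - ψ z)) * (z - a)
        = 4 * (1 + K) * ((z - a) * ((1 + K) * (ψ b - ψ z))) := by ring
    rw [e1, e2]
    exact k2.trans (low.trans k6)
  exact le_of_mul_le_mul_left k7 (by positivity)

end Pool.Agent.Work.MP_e64a38_co.Env
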